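import Pool.Agent.helper79.WB.SpecII

/-!
# Row EXC of project wb (Part II)
-/

set_option autoImplicit false

namespace Pool.Agent.WB

open MvPolynomial

namespace EXCaux

/-- `F` majorises `f` coefficientwise -/
def Maj (f F : Polynomial ℤ) : Prop := ∀ n, |f.coeff n| ≤ F.coeff n

theorem Maj.nonneg {f F : Polynomial ℤ} (h : Maj f F) (n : ℕ) : 0 ≤ F.coeff n :=
  le_trans (abs_nonneg _) (h n)

theorem Maj.add {f F g G : Polynomial ℤ} (h : Maj f F) (k : Maj g G) : Maj (f + g) (F + G) := by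
  intro n
  rw [Polynomial.coeff_add, Polynomial.coeff_add]
  exact le_trans (abs_add_le _ _) (add_le_add (h n) (k n))

theorem Maj.mul {f F g G : Polynomial ℤ} (h : Maj f F) (k : Maj g G) : Maj (f * g) (F * G) := by
  intro n
  rw [Polynomial.coeff_mul, Polynomial.coeff_mul]
  refine le_trans (Finset.abs_sum_le_sum_abs _ _) (Finset.sum_le_sum ?_)
  intro x _
  rw [abs_mul]
  exact mul_le_mul (h _) (k _) (abs_nonneg _) (h.nonneg _)

theorem Maj.one : Maj 1 1 := by
  intro n
  rw [Polynomial.coeff_one]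
  split_ifs <;> simp

theorem Maj.pow {f F : Polynomial ℤ} (h : Maj f F) (n : ℕ) : Maj (f ^ n) (F ^ n) := by
  induction n with
  | zero => rw [pow_zero, pow_zero]; exact Maj.one
  | succ n ih => rw [pow_succ, pow_succ]; exact ih.mul h

theorem Maj.C (a : ℤ) : Maj (Polynomial.C a) (Polynomial.C |a|) := by
  intro n
  rw [Polynomial.coeff_C, Polynomial.coeff_C]
  split_ifs <;> simp

theorem Maj.X : Maj Polynomial.X Polynomial.X := by
  intro n
  rw [Polynomial.coeff_X]
  split_ifs <;> simp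

theorem Maj.zero : Maj 0 0 := by
  intro n
  simp

theorem Maj.sum {ι : Type} (s : Finset ι) (f F : ι → Polynomial ℤ)
    (h : ∀ i ∈ s, Maj (f i) (F i)) : Maj (∑ i ∈ s, f i) (∑ i ∈ s, F i) := by
  classical
  induction s using Finset.induction_on with
  | empty => simpa using Maj.zero
  | insert a s ha ih =>
    rw [Finset.sum_insert ha, Finset.sum_insert ha]
    exact (h a (Finset.mem_insert_self a s)).add
      (ih fun i hi => h i (Finset.mem_insert_of_mem hi))

theorem Maj.prod {ι : Type} (s : Finset ι) (f F : ι → Polynomial ℤ)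
    (h : ∀ i ∈ s, Maj (f i) (F i)) : Maj (∏ i ∈ s, f i) (∏ i ∈ s, F i) := by
  classical
  induction s using Finset.induction_on with
  | empty => simpa using Maj.one
  | insert a s ha ih =>
    rw [Finset.prod_insert ha, Finset.prod_insert ha]
    exact (h a (Finset.mem_insert_self a s)).mul
      (ih fun i hi => h i (Finset.mem_insert_of_mem hi))

theorem Maj.le_eval {f F : Polynomial ℤ} (h : Maj f F) (n : ℕ) : |f.coeff n| ≤ F.eval 1 := by
  refine le_trans (h n) ?_
  rw [Polynomial.eval_eq_sum, Polynomial.sum_def]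
  have h1 : ∀ i ∈ F.support, 0 ≤ F.coeff i * 1 ^ i := by
    intro i _
    rw [one_pow, mul_one]
    exact h.nonneg i
  by_cases hn : n ∈ F.support
  · have h2 := Finset.single_le_sum h1 hn
    rw [one_pow, mul_one] at h2
    exact h2
  · rw [Polynomial.notMem_support_iff.mp hn]
    exact Finset.sum_nonneg h1

/-- the substitution -/
noncomputable def ph (v y : V3) : MvPolynomial (Fin 3) ℤ →ₐ[ℤ] Polynomial ℤ :=
  aeval (fun i => Polynomial.C (v i) + Polynomial.C (y i) * Polynomial.X)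

theorem ph_eval (v y : V3) (t : ℤ) (p : MvPolynomial (Fin 3) ℤ) :
    (ph v y p).eval t = eval (fun i => v i + y i * t) p := by
  have h : ((Polynomial.evalRingHom t).comp (ph v y).toRingHom) =
      (eval (fun i => v i + y i * t) : MvPolynomial (Fin 3) ℤ →+* ℤ) := by
    apply MvPolynomial.ringHom_ext
    · intro r
      simp [ph]
    · intro i
      simp [ph]
  have h2 := congrArg (fun g : MvPolynomial (Fin 3) ℤ →+* ℤ => g p) h
  simpa using h2

theorem supp_card (h1 : DIM3_stmt) (D : ℕ) (G : MvPolynomial (Fin 3) ℤ)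
    (hG : G.IsHomogeneous D) : G.support.card ≤ s3 D := by
  have hc := h1.1 D
  have hpos : 0 < s3 D := by
    unfold s3
    have : 2 ≤ (D + 1) * (D + 2) := by nlinarith
    omega
  have hfin : Finite {μ : Fin 3 →₀ ℕ // μ.degree = D} := by
    apply Nat.finite_of_card_ne_zero
    rw [hc]
    omega
  have hdeg : ∀ μ ∈ G.support, μ.degree = D := by
    intro μ hμ
    have := hG (MvPolynomial.mem_support_iff.mp hμ)
    rw [← this]
    rw [Finsupp.degree_eq_weight_one]
    rfl
  have hle : Nat.card {μ // μ ∈ G.support} ≤ Nat.card {μ : Fin 3 →₀ ℕ // μ.degree = D} := by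
    apply Nat.card_le_card_of_injective
      (fun μ : {μ // μ ∈ G.support} => (⟨μ.1, hdeg μ.1 μ.2⟩ : {μ : Fin 3 →₀ ℕ // μ.degree = D}))
    intro a b hab
    apply Subtype.ext
    exact congrArg (fun z : {μ : Fin 3 →₀ ℕ // μ.degree = D} => z.1) hab
  rw [hc] at hle
  rwa [Nat.card_eq_fintype_card, Fintype.card_coe] at hle

theorem deg_of (D : ℕ) (G : MvPolynomial (Fin 3) ℤ) (hG : G.IsHomogeneous D)
    (μ : Fin 3 →₀ ℕ) (hμ : μ ∈ G.support) : ∑ i : Fin 3, μ i = D := by
  have := hG (MvPolynomial.mem_support_iff.mp hμ)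
  have h2 : μ.degree = D := by
    rw [← this]
    rw [Finsupp.degree_eq_weight_one]
    rfl
  rw [← h2, Finsupp.degree_eq_sum]

theorem s3_le (N D : ℕ) (hN : 2 ≤ N) (hD : D ≤ N) : s3 D ≤ N ^ 3 := by
  unfold s3
  apply Nat.div_le_of_le_mul
  have h1 : (D + 1) * (D + 2) ≤ (N + 1) * (N + 2) := Nat.mul_le_mul (by omega) (by omega)
  refine le_trans h1 ?_
  have h2 : N + 1 ≤ 2 * N := by omega
  have h3 : N + 2 ≤ N * N := by nlinarith
  calc (N + 1) * (N + 2) ≤ (2 * N) * (N * N) := Nat.mul_le_mul h2 h3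
    _ = 2 * N ^ 3 := by ring

theorem bound (h1 : DIM3_stmt) (N D : ℕ) (G : MvPolynomial (Fin 3) ℤ) (v y : V3) (hN : 2 ≤ N)
    (hD : D ≤ N) (hG : Cf N D G) (hv : ∀ i, |v i| ≤ (N : ℤ)) (hy : ∀ i, |y i| ≤ 2 * (N : ℤ))
    (n : ℕ) : |(ph v y G).coeff n| ≤ (N : ℤ) ^ (4 * D + 8) := by
  obtain ⟨hG0, hGh, hGc⟩ := hG
  have hNz : (2 : ℤ) ≤ (N : ℤ) := by exact_mod_cast hN
  let F : Polynomial ℤ := ∑ μ ∈ G.support, Polynomial.C |coeff μ G| *
    ∏ i : Fin 3, (Polynomial.C |v i| + Polynomial.C |y i| * Polynomial.X) ^ (μ i)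
  have hph : ph v y G = ∑ μ ∈ G.support, Polynomial.C (coeff μ G) *
      ∏ i : Fin 3, (Polynomial.C (v i) + Polynomial.C (y i) * Polynomial.X) ^ (μ i) := by
    unfold ph
    rw [aeval_def, eval₂_eq']
    rfl
  have hM : Maj (ph v y G) F := by
    rw [hph]
    apply Maj.sum
    intro μ _
    refine (Maj.C _).mul ?_
    apply Maj.prod
    intro i _
    exact ((Maj.C _).add ((Maj.C _).mul Maj.X)).pow _
  refine le_trans (hM.le_eval n) ?_
  have hF : F.eval 1 = ∑ μ ∈ G.support, |coeff μ G| * ∏ i : Fin 3, (|v i| + |y i|) ^ (μ i) := by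
    show (∑ μ ∈ G.support, Polynomial.C |coeff μ G| *
      ∏ i : Fin 3, (Polynomial.C |v i| + Polynomial.C |y i| * Polynomial.X) ^ (μ i)).eval 1 = _
    rw [Polynomial.eval_finsetSum]
    apply Finset.sum_congr rfl
    intro μ _
    rw [Polynomial.eval_mul, Polynomial.eval_prod, Polynomial.eval_C]
    congr 1
    apply Finset.prod_congr rfl
    intro i _
    simp
  rw [hF]
  have hterm : ∀ μ ∈ G.support, |coeff μ G| * ∏ i : Fin 3, (|v i| + |y i|) ^ (μ i) ≤
      ((s3 D * N ^ D : ℕ) : ℤ) * (3 * (N : ℤ)) ^ D := by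
    intro μ hμ
    have hp : ∏ i : Fin 3, (|v i| + |y i|) ^ (μ i) ≤ (3 * (N : ℤ)) ^ D := by
      calc ∏ i : Fin 3, (|v i| + |y i|) ^ (μ i) ≤ ∏ i : Fin 3, (3 * (N : ℤ)) ^ (μ i) := by
            apply Finset.prod_le_prod
            · intro i _
              exact pow_nonneg (add_nonneg (abs_nonneg _) (abs_nonneg _)) _
            · intro i _
              apply pow_le_pow_left₀ (add_nonneg (abs_nonneg _) (abs_nonneg _))
              have := hv i
              have := hy i
              linarith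
        _ = (3 * (N : ℤ)) ^ D := by
            rw [Finset.prod_pow_eq_pow_sum, deg_of D G hGh μ hμ]
    refine mul_le_mul (hGc μ) hp ?_ (by positivity)
    exact Finset.prod_nonneg fun i _ =>
      pow_nonneg (add_nonneg (abs_nonneg _) (abs_nonneg _)) _
  have hs := Finset.sum_le_card_nsmul G.support _ _ hterm
  refine le_trans hs ?_
  rw [nsmul_eq_mul]
  have hcard : (G.support.card : ℤ) ≤ ((N : ℤ)) ^ 3 := by
    have := le_trans (supp_card h1 D G hGh) (s3_le N D hN hD)
    exact_mod_cast this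
  have hs3 : ((s3 D : ℕ) : ℤ) ≤ (N : ℤ) ^ 3 := by
    exact_mod_cast s3_le N D hN hD
  have h3N : (3 * (N : ℤ)) ^ D ≤ ((N : ℤ) ^ 3) ^ D := by
    apply pow_le_pow_left₀ (by linarith)
    have h4 : (4 : ℤ) ≤ (N : ℤ) * (N : ℤ) := by nlinarith
    calc (3 : ℤ) * (N : ℤ) ≤ ((N : ℤ) * (N : ℤ)) * (N : ℤ) :=
          mul_le_mul_of_nonneg_right (by linarith) (by linarith)
      _ = (N : ℤ) ^ 3 := by ring
  have hcast : ((s3 D * N ^ D : ℕ) : ℤ) = ((s3 D : ℕ) : ℤ) * (N : ℤ) ^ D := by push_cast; ring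
  rw [hcast]
  calc (G.support.card : ℤ) * (((s3 D : ℕ) : ℤ) * (N : ℤ) ^ D * (3 * (N : ℤ)) ^ D)
      ≤ (N : ℤ) ^ 3 * ((N : ℤ) ^ 3 * (N : ℤ) ^ D * ((N : ℤ) ^ 3) ^ D) := by
        apply mul_le_mul hcard _ (by positivity) (by positivity)
        apply mul_le_mul _ h3N (by positivity) (by positivity)
        apply mul_le_mul_of_nonneg_right hs3 (by positivity)
    _ = (N : ℤ) ^ (4 * D + 6) := by ring
    _ ≤ (N : ℤ) ^ (4 * D + 8) := by
        apply pow_le_pow_right₀ (by linarith)
        omega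

end EXCaux

open EXCaux in
theorem EXC (h1 : DIM3_stmt) : EXC_stmt := by
  intro N D G v hN hD hG hv
  have hNz : (2 : ℤ) ≤ (N : ℤ) := by exact_mod_cast hN
  have hx : ∃ x : V3, (∀ i, x i ∈ (Finset.range (D + 1)).image (fun k : ℕ => (k : ℤ))) ∧
      eval x G ≠ 0 := by
    by_contra hcon
    push Not at hcon
    apply hG.1
    apply eq_zero_of_eval_zero_at_prod_finset G
      (fun _ => (Finset.range (D + 1)).image (fun k : ℕ => (k : ℤ)))
    · intro i
      rw [Finset.card_image_of_injective _ Nat.cast_injective, Finset.card_range]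
      have := degreeOf_le_totalDegree G i
      have h2 := hG.2.1.totalDegree_le
      omega
    · intro x hx
      exact hcon x hx
  obtain ⟨x, hx, hx0⟩ := hx
  have hxb : ∀ i, |x i| ≤ (N : ℤ) := by
    intro i
    obtain ⟨k, hk, hk2⟩ := Finset.mem_image.mp (hx i)
    rw [← hk2, Nat.abs_cast]
    have := Finset.mem_range.mp hk
    exact_mod_cast (by omega : k ≤ N)
  let y : V3 := fun i => x i - v i
  have hy : ∀ i, |y i| ≤ 2 * (N : ℤ) := by
    intro i
    have h2 := abs_sub (x i) (v i)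
    have := hxb i
    have := hv i
    show |x i - v i| ≤ _
    linarith
  have hev1 : (ph v y G).eval 1 = eval x G := by
    rw [ph_eval]
    congr 2
    funext i
    show v i + (x i - v i) * 1 = x i
    ring
  have hev0 : ∀ p : MvPolynomial (Fin 3) ℤ, (ph v y p).coeff 0 = eval v p := by
    intro p
    rw [Polynomial.coeff_zero_eq_eval_zero, ph_eval]
    congr 2
    funext i
    ring
  have hne : ph v y G ≠ 0 := by
    intro h0
    rw [h0, Polynomial.eval_zero] at hev1
    exact hx0 hev1.symm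
  refine ⟨(ph v y G).trailingCoeff, Polynomial.trailingCoeff_nonzero_iff_nonzero.mpr hne, ?_, ?_⟩
  · exact bound h1 N D G v y hN hD hG hv hy _
  · intro p hp hpv
    obtain ⟨q, hq⟩ := hp
    have h2 : ph v y G = ph v y p * ph v y q := by rw [hq, map_mul]
    rw [h2, Polynomial.trailingCoeff_mul]
    have h3 : (ph v y p).trailingCoeff = eval v p := by
      rw [Polynomial.trailingCoeff_eq_coeff_zero, hev0]
      rw [hev0]
      exact hpv
    rw [h3]
    exact Dvd.intro _ rfl

end Pool.Agent.WB
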